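import Pool.Agent.Run7.h177.TA.Iface

/-!
# Project TA, piece DES: specialisation of the data to an algebraic closure of the number field
-/

set_option autoImplicit false

namespace Run7.h939.TA

open MvPolynomial Run7.h177.TA

section mapping

variable {R R' : Type} [CommRing R] [CommRing R'] {w n : ℕ}

/-- the data after a ring homomorphism -/
noncomputable def dmap (f : R →+* R') (D : Dyn R w n) : Dyn R' w n where
  M := map f D.M
  a := fun j => map f (D.a j)
  b := map f D.b
  c := fun i => map f (D.c i)
  l0 := D.l0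
  l := D.l
  κ := fun i => f (D.κ i)

theorem map_hom (f : R →+* R') (e : ℕ) (a : Option (Fin w) → Pl R w) (b H : Pl R w) :
    map f (hom e a b H) = hom e (fun j => map f (a j)) (map f b) (map f H) := by
  unfold hom
  rw [map_sum]
  symm
  rw [Finset.sum_subset (support_map_subset f H)]
  · apply Finset.sum_congr rfl
    intro m _
    simp only [coeff_map, map_mul, map_prod, map_pow, map_C]
  · intro m _ hm
    simp [notMem_support_iff.1 hm]

theorem map_lc (f : R →+* R') (j : Option (Fin w)) (H : Pl R w) :
    lc j (map f H) = f (lc j H) := by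
  simp [lc, coeff_map]

theorem map_aeval' (f : R →+* R') {τ : Type} (c : Fin (n + 1) → MvPolynomial τ R)
    (P : MvPolynomial (Fin (n + 1)) R) :
    map f (aeval c P) = aeval (fun i => map f (c i)) (map f P) := by
  induction P using MvPolynomial.induction_on with
  | C r => simp [algebraMap_eq]
  | add p q hp hq => simp only [map_add, hp, hq]
  | mul_X p i hp => simp only [map_mul, aeval_X, map_X, hp]

/-- Good data stay good after a ring homomorphism. -/
theorem good_map (f : R →+* R') {ι : Type} {F : ι → MvPolynomial (Fin (n + 1)) R}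
    {Q : MvPolynomial (Fin (n + 1)) R} {D : Dyn R w n} (h : Good F Q D) :
    Good (fun i => map f (F i)) (map f Q) (dmap f D) where
  M0 := by
    show constantCoeff (map f D.M) = 0
    rw [constantCoeff_map, h.M0, map_zero]
  M1 := by
    show IsUnit (lc none (map f D.M))
    rw [map_lc]; exact h.M1.map f
  b0 := by
    show constantCoeff (map f D.b) = 1
    rw [constantCoeff_map, h.b0, map_one]
  a0 := by
    intro j
    show constantCoeff (map f (D.a j)) = 0
    rw [constantCoeff_map, h.a0, map_zero]
  lin := by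
    intro i j
    have := congrArg f (h.lin i j)
    simp only [map_sub, map_mul] at this
    show lc (some j) (map f (D.a (some i))) * lc none (map f D.M) -
      lc none (map f (D.a (some i))) * lc (some j) (map f D.M) =
      if i = j then 2 * lc none (map f D.M) else 0
    simp only [map_lc]
    rw [this]
    split_ifs <;> simp [map_ofNat]
  inv := by
    obtain ⟨e, he, hd⟩ := h.inv
    refine ⟨e, fun m hm => he m (support_map_subset f D.M hm), ?_⟩
    have := _root_.map_dvd (map f) hd
    rw [map_hom] at this
    exact this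
  eqn := by
    intro i
    have := _root_.map_dvd (map f) (h.eqn i)
    rw [map_aeval'] at this
    exact this
  c0 := by
    show IsUnit (constantCoeff (map f (D.c D.l0)))
    rw [constantCoeff_map]; exact h.c0.map f
  cl := by
    intro i
    show map f (D.c (D.l i)) = map f (D.c D.l0) * (X (some i) + C (f (D.κ i)))
    rw [h.cl i]; simp
  q0 := by
    show IsUnit (constantCoeff (aeval (fun i => map f (D.c i)) (map f Q)))
    rw [← map_aeval', constantCoeff_map]; exact h.q0.map f

/-- Descent: data over `R'` which come from `R` are good over `R` if the inverses of the units and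
the quotients in the divisibility conditions come from `R`. -/
theorem good_descend (f : R →+* R') (hf : Function.Injective f) {ι : Type}
    {F : ι → MvPolynomial (Fin (n + 1)) R} {Q : MvPolynomial (Fin (n + 1)) R} {D : Dyn R w n}
    (h : Good (fun i => map f (F i)) (map f Q) (dmap f D))
    (i1 : ∃ r, f (lc none D.M) * f r = 1) (i2 : ∃ r, f (constantCoeff (D.c D.l0)) * f r = 1)
    (i3 : ∃ r, f (constantCoeff (aeval D.c Q)) * f r = 1)
    (hi : ∃ e, (∀ m ∈ (dmap f D).M.support, m.degree ≤ e) ∧
      ∃ q : Pl R w, (dmap f D).M * map f q = hom e (dmap f D).a (dmap f D).b (dmap f D).M)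
    (he : ∀ i, D.M ∣ aeval D.c (F i)) :
    Good F Q D := by
  have hinj := map_injective (σ := Option (Fin w)) f hf
  refine ⟨?_, ?_, ?_, ?_, ?_, ?_, he, ?_, ?_, ?_⟩
  · apply hf
    have := h.M0
    change constantCoeff (map f D.M) = 0 at this
    rw [constantCoeff_map] at this
    rw [this, map_zero]
  · obtain ⟨r, hr⟩ := i1
    exact IsUnit.of_mul_eq_one r (hf (by rw [map_mul, hr, map_one]))
  · apply hf
    have := h.b0
    change constantCoeff (map f D.b) = 1 at this
    rw [constantCoeff_map] at this
    rw [this, map_one]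
  · intro j
    apply hf
    have := h.a0 j
    change constantCoeff (map f (D.a j)) = 0 at this
    rw [constantCoeff_map] at this
    rw [this, map_zero]
  · intro i j
    apply hf
    have := h.lin i j
    change lc (some j) (map f (D.a (some i))) * lc none (map f D.M) -
      lc none (map f (D.a (some i))) * lc (some j) (map f D.M) =
      (if i = j then 2 * lc none (map f D.M) else 0) at this
    simp only [map_lc] at this
    simp only [map_sub, map_mul]
    rw [this]
    split_ifs <;> simp [map_ofNat]
  · obtain ⟨e, he', q, hq⟩ := hi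
    refine ⟨e, ?_, q, ?_⟩
    · intro m hm
      apply he'
      show m ∈ (map f D.M).support
      rw [mem_support_iff, coeff_map]
      rw [mem_support_iff] at hm
      intro h0
      exact hm (hf (by rw [h0, map_zero]))
    · apply hinj
      rw [map_hom, map_mul]
      exact hq.symm
  · obtain ⟨r, hr⟩ := i2
    exact IsUnit.of_mul_eq_one r (hf (by rw [map_mul, hr, map_one]))
  · intro i
    apply hinj
    have := h.cl i
    change map f (D.c (D.l i)) = map f (D.c D.l0) * (X (some i) + C (f (D.κ i))) at this
    rw [this]; simp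
  · obtain ⟨r, hr⟩ := i3
    exact IsUnit.of_mul_eq_one r (hf (by rw [map_mul, hr, map_one]))

end mapping

/-- The Nullstellensatz in the form: a nonzero finitely generated algebra over a field has a point over
the algebraic closure. -/
theorem exists_point (k A : Type) [Field k] [CommRing A] [Nontrivial A] [Algebra k A]
    [Algebra.FiniteType k A] : Nonempty (A →ₐ[k] AlgebraicClosure k) := by
  obtain ⟨m, hm⟩ := Ideal.exists_maximal A
  let : Field (A ⧸ m) := Ideal.Quotient.field m
  have : Algebra.FiniteType k (A ⧸ m) :=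
    Algebra.FiniteType.of_surjective (Ideal.Quotient.mkₐ k m) (Ideal.Quotient.mkₐ_surjective k m)
  have : Module.Finite k (A ⧸ m) := finite_of_finite_type_of_isJacobsonRing k (A ⧸ m)
  have : Algebra.IsAlgebraic k (A ⧸ m) := Algebra.IsAlgebraic.of_finite k (A ⧸ m)
  exact ⟨(IsAlgClosed.lift : (A ⧸ m) →ₐ[k] AlgebraicClosure k).comp (Ideal.Quotient.mkₐ k m)⟩

/-- **Piece DES.** -/
theorem t_DES : S_DES := by
  intro k _ _ σ w n ι F Q D hG
  classical
  let : Algebra k ℂ := σ.toAlgebra
  have hσ : algebraMap k ℂ = σ := rfl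
  -- a finite subfamily
  obtain ⟨t, htF, hts⟩ : ∃ t : Finset (MvPolynomial (Fin (n + 1)) k),
      (t : Set (MvPolynomial (Fin (n + 1)) k)) ⊆ Set.range F ∧
        Ideal.span (t : Set (MvPolynomial (Fin (n + 1)) k)) = Ideal.span (Set.range F) := by
    obtain ⟨t, h1, h2⟩ := (Submodule.fg_span_iff_fg_span_finset_subset (R := MvPolynomial (Fin (n + 1)) k)
      (Set.range F)).1 (IsNoetherian.noetherian _)
    exact ⟨t, h1, h2.symm⟩
  have hdiv : ∀ P ∈ t, D.M ∣ aeval D.c (map σ P) := by
    intro P hP
    obtain ⟨i, rfl⟩ := htF hP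
    exact hG.eqn i
  choose! qF hqF using hdiv
  obtain ⟨e, hdeg, qI, hqI⟩ := hG.inv
  obtain ⟨u1, hu1⟩ := hG.M1.exists_right_inv
  obtain ⟨u2, hu2⟩ := hG.c0.exists_right_inv
  obtain ⟨u3, hu3⟩ := hG.q0.exists_right_inv
  -- the finite set of polynomials
  let T : Finset (Pl ℂ w) := {D.M, D.b, qI, C u1, C u2, C u3} ∪ Finset.univ.image D.a ∪
    Finset.univ.image D.c ∪ Finset.univ.image (fun i => C (D.κ i)) ∪ t.image qF
  let S : Finset ℂ := T.biUnion coeffs
  let R : Subalgebra k ℂ := Algebra.adjoin k (S : Set ℂ)
  have hlift : ∀ p ∈ T, ∃ q : Pl R w, map (R.val : R →+* ℂ) q = p := by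
    intro p hp
    have : p ∈ Set.range (map (σ := Option (Fin w)) (R.val : R →+* ℂ)) := by
      rw [mem_range_map_iff_coeffs_subset]
      intro x hx
      refine ⟨⟨x, Algebra.subset_adjoin ?_⟩, rfl⟩
      exact Finset.mem_biUnion.2 ⟨p, hp, hx⟩
    obtain ⟨q, hq⟩ := this
    exact ⟨q, hq⟩
  have hliftC : ∀ r : ℂ, C r ∈ T → ∃ s : R, (R.val : R →+* ℂ) s = r := by
    intro r hr
    obtain ⟨q, hq⟩ := hlift _ hr
    refine ⟨constantCoeff q, ?_⟩
    rw [← constantCoeff_map, hq, constantCoeff_C]
  obtain ⟨M', hM'⟩ := hlift D.M (by simp [T])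
  obtain ⟨b', hb'⟩ := hlift D.b (by simp [T])
  obtain ⟨qI', hqI'⟩ := hlift qI (by simp [T])
  obtain ⟨v1, hv1⟩ := hliftC u1 (by simp [T])
  obtain ⟨v2, hv2⟩ := hliftC u2 (by simp [T])
  obtain ⟨v3, hv3⟩ := hliftC u3 (by simp [T])
  have ha : ∀ j, ∃ q : Pl R w, map (R.val : R →+* ℂ) q = D.a j := fun j => hlift _ (by
    simp only [T, Finset.mem_union, Finset.mem_image]
    exact Or.inl (Or.inl (Or.inl (Or.inr ⟨j, Finset.mem_univ _, rfl⟩))))
  have hc : ∀ j, ∃ q : Pl R w, map (R.val : R →+* ℂ) q = D.c j := fun j => hlift _ (by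
    simp only [T, Finset.mem_union, Finset.mem_image]
    exact Or.inl (Or.inl (Or.inr ⟨j, Finset.mem_univ _, rfl⟩)))
  have hκ : ∀ i, ∃ s : R, (R.val : R →+* ℂ) s = D.κ i := fun i => hliftC _ (by
    simp only [T, Finset.mem_union, Finset.mem_image]
    exact Or.inl (Or.inr ⟨i, Finset.mem_univ _, rfl⟩))
  have hq : ∀ P ∈ t, ∃ q : Pl R w, map (R.val : R →+* ℂ) q = qF P := fun P hP => hlift _ (by
    simp only [T, Finset.mem_union, Finset.mem_image]
    exact Or.inr ⟨P, hP, rfl⟩)
  choose a' ha' using ha
  choose c' hc' using hc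
  choose κ' hκ' using hκ
  let D' : Dyn R w n := ⟨M', a', b', c', D.l0, D.l, κ'⟩
  have hD' : dmap (R.val : R →+* ℂ) D' = D := by
    show (⟨map _ M', fun j => map _ (a' j), map _ b', fun i => map _ (c' i), D.l0, D.l,
      fun i => (R.val : R →+* ℂ) (κ' i)⟩ : Dyn ℂ w n) = D
    simp only [hM', ha', hb', hc', hκ']
  have hcomp : (R.val : R →+* ℂ).comp (algebraMap k R) = σ := by
    ext x; rfl
  have hFm : ∀ P : MvPolynomial (Fin (n + 1)) k,
      map (R.val : R →+* ℂ) (map (algebraMap k R) P) = map σ P := by
    intro P; rw [map_map, hcomp]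
  have hinj : Function.Injective (R.val : R →+* ℂ) := Subtype.val_injective
  have hpinj := map_injective (σ := Option (Fin w)) (R.val : R →+* ℂ) hinj
  have hcs : (fun i => map (R.val : R →+* ℂ) (D'.c i)) = D.c := by
    funext i; exact hc' i
  have hGR : Good (fun i => map (algebraMap k R) (F i)) (map (algebraMap k R) Q) D' := by
    apply good_descend (R.val : R →+* ℂ) hinj
    · rw [hD']; simp only [hFm]; exact hG
    · refine ⟨v1, ?_⟩
      rw [hv1, ← map_lc]
      show lc none (map (R.val : R →+* ℂ) M') * u1 = 1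
      rw [hM', hu1]
    · refine ⟨v2, ?_⟩
      rw [hv2, ← constantCoeff_map]
      show constantCoeff (map (R.val : R →+* ℂ) (c' D.l0)) * u2 = 1
      rw [hc', hu2]
    · refine ⟨v3, ?_⟩
      rw [hv3, ← constantCoeff_map, map_aeval', hcs, hFm, hu3]
    · rw [hD']
      exact ⟨e, hdeg, qI', by rw [hqI', hqI]⟩
    · -- divisibility: ideal argument
      let Φ : MvPolynomial (Fin (n + 1)) k →+* Pl R w :=
        (aeval D'.c : MvPolynomial (Fin (n + 1)) R →ₐ[R] Pl R w).toRingHom.comp
          (map (algebraMap k R))
      have hle : Ideal.span (Set.range F) ≤ (Ideal.span {M'}).comap Φ := by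
        rw [← hts, Ideal.span_le]
        intro P hP
        obtain ⟨q, hq'⟩ := hq P hP
        show Φ P ∈ Ideal.span {M'}
        rw [Ideal.mem_span_singleton]
        refine ⟨q, ?_⟩
        apply hpinj
        show map (R.val : R →+* ℂ) (aeval D'.c (map (algebraMap k R) P)) = _
        rw [map_aeval', hcs, hFm, map_mul, hM', hq', hqF P hP]
      intro i
      have := hle (Ideal.subset_span ⟨i, rfl⟩)
      rw [Ideal.mem_comap, Ideal.mem_span_singleton] at this
      exact this
  -- Nullstellensatz
  have : Algebra.FiniteType k R := by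
    have : R.FG := ⟨S, rfl⟩
    exact (Subalgebra.fg_iff_finiteType R).1 this
  obtain ⟨φ⟩ := exists_point k R
  have hφ : (φ : R →+* AlgebraicClosure k).comp (algebraMap k R) =
      algebraMap k (AlgebraicClosure k) := φ.comp_algebraMap
  refine ⟨dmap (φ : R →+* AlgebraicClosure k) D', ?_⟩
  have := good_map (φ : R →+* AlgebraicClosure k) hGR
  simp only [map_map, hφ] at this
  exact this

end Run7.h939.TA
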